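import Pool.Agent.Work.MP_2738db_nt_C.Interface

set_option autoImplicit false

namespace Pool.Agent.Work.MP_2738db_nt_C.helper5

open Finset

/-- a prime `p ∤ k` dividing `w` where `x - y = 2 w` and `x ^ k - y ^ k = 2 A ^ l`: then
`p ^ l ∣ w`. -/
theorem xo3_core (x y A w : ℤ) (k l p : ℕ) (hp : p.Prime) (hpk : ¬ p ∣ k)
    (hxy : x - y = 2 * w) (hE : x ^ k - y ^ k = 2 * A ^ l) (hco : IsCoprime x y)
    (hpw : (p : ℤ) ∣ w) : (p : ℤ) ^ l ∣ w := by
  have hp' : Prime (p : ℤ) := Nat.prime_iff_prime_int.mp hp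
  have hdvd : (p : ℤ) ∣ x - y := by
    rw [hxy]
    exact Dvd.dvd.mul_left hpw 2
  have hx : ¬ (p : ℤ) ∣ x := by
    intro h
    have h2 : (p : ℤ) ∣ y := by
      have h3 := dvd_sub h hdvd
      simpa using h3
    exact hp'.not_isUnit (hco.isUnit_of_dvd' h h2)
  have hk : ¬ (p : ℤ) ∣ (k : ℤ) := by
    intro h
    exact hpk (Int.natCast_dvd_natCast.mp h)
  have hS : ¬ (p : ℤ) ∣ ∑ i ∈ range k, x ^ i * y ^ (k - 1 - i) :=
    not_dvd_geom_sum₂ hp' hdvd hx hk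
  have hg : (∑ i ∈ range k, x ^ i * y ^ (k - 1 - i)) * (x - y) = x ^ k - y ^ k :=
    (Commute.all x y).geom_sum₂_mul k
  rw [hxy, hE] at hg
  have hg2 : (∑ i ∈ range k, x ^ i * y ^ (k - 1 - i)) * w = A ^ l := by
    have h2 : (2 : ℤ) * ((∑ i ∈ range k, x ^ i * y ^ (k - 1 - i)) * w) = 2 * A ^ l := by
      rw [← hg]; ring
    exact mul_left_cancel₀ (by norm_num) h2
  have hA : (p : ℤ) ∣ A := by
    have h1 : (p : ℤ) ∣ A ^ l := by
      rw [← hg2]
      exact Dvd.dvd.mul_left hpw _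
    exact hp'.dvd_of_dvd_pow h1
  have hA2 : (p : ℤ) ^ l ∣ (∑ i ∈ range k, x ^ i * y ^ (k - 1 - i)) * w := by
    rw [hg2]
    exact pow_dvd_pow_of_dvd hA l
  have hc : IsCoprime ((p : ℤ) ^ l) (∑ i ∈ range k, x ^ i * y ^ (k - 1 - i)) := by
    apply IsCoprime.pow_left
    exact (Prime.coprime_iff_not_dvd hp').mpr hS
  exact hc.dvd_of_dvd_mul_left hA2

theorem xo3_end (p l w : ℕ) (v : ℕ) (hp : p.Prime) (hw : 0 < w) (hwv : w ≤ 2 * v)
    (hl : 2 * v < 2 ^ l) (h : (p : ℤ) ^ l ∣ (w : ℤ)) : False := by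
  have h1 : p ^ l ∣ w := by
    have : ((p ^ l : ℕ) : ℤ) ∣ (w : ℤ) := by
      push_cast
      exact h
    exact Int.natCast_dvd_natCast.mp this
  have h2 : p ^ l ≤ w := Nat.le_of_dvd hw h1
  have h3 : 2 ^ l ≤ p ^ l := Nat.pow_le_pow_left hp.two_le l
  omega

theorem xo3 : Stmt_Xo3 := by
  intro u v k l A z hu huv hco hu2 hv2 hk hk2 hkz hl hvl
  have hnot : ∀ p : ℕ, p.Prime → p ≤ z → ¬ p ∣ k := by
    intro p hp hpz hpk
    have := hkz p hp hpk
    omega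
  have hkodd : Odd k := by
    rw [← Nat.not_even_iff_odd]
    intro h
    exact hk2 h.two_dvd
  have hcoi : IsCoprime (v : ℤ) (u : ℤ) := (Nat.isCoprime_iff_coprime.mpr hco).symm
  constructor
  · intro hE
    refine ⟨(v + u) / 2, by omega, ?_⟩
    intro p hp hpz hpw
    have hvu : v + u = 2 * ((v + u) / 2) := by omega
    refine xo3_end p l ((v + u) / 2) v hp (by omega) (by omega) hvl ?_
    refine xo3_core (v : ℤ) (-(u : ℤ)) (A : ℤ) (((v + u) / 2 : ℕ) : ℤ) k l p hp (hnot p hp hpz)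
      ?_ ?_ hcoi.neg_right (Int.natCast_dvd_natCast.mpr hpw)
    · have : ((v + u : ℕ) : ℤ) = ((2 * ((v + u) / 2) : ℕ) : ℤ) := by exact_mod_cast hvu
      rw [Nat.cast_mul] at this
      rw [sub_neg_eq_add, ← Nat.cast_add, this]
      norm_num
    · rw [hkodd.neg_pow, sub_neg_eq_add]
      exact_mod_cast hE
  · intro hE
    refine ⟨(v - u) / 2, by omega, ?_⟩
    intro p hp hpz hpw
    have hvu : v = u + 2 * ((v - u) / 2) := by omega
    refine xo3_end p l ((v - u) / 2) v hp (by omega) (by omega) hvl ?_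
    refine xo3_core (v : ℤ) (u : ℤ) (A : ℤ) (((v - u) / 2 : ℕ) : ℤ) k l p hp (hnot p hp hpz)
      ?_ ?_ hcoi (Int.natCast_dvd_natCast.mpr hpw)
    · have : ((v : ℕ) : ℤ) = ((u + 2 * ((v - u) / 2) : ℕ) : ℤ) := by exact_mod_cast hvu
      rw [Nat.cast_add, Nat.cast_mul] at this
      rw [this]
      push_cast
      ring
    · have : ((v ^ k : ℕ) : ℤ) = ((u ^ k + 2 * A ^ l : ℕ) : ℤ) := by exact_mod_cast hE
      push_cast at this
      rw [this]
      ring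

end Pool.Agent.Work.MP_2738db_nt_C.helper5
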